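import Mathlib
import Pool.Agent.TateFT.FermatDefs

/-!
Hodge classes on Fermat varieties: definitions for the statement.
-/

namespace Pool.Agent.HOD

open Pool.Agent.TateFT

/-- The degrees `m` of the theorem: `l ^ k` and `2 * l ^ k` (`l` prime), `2 ^ a * 3 ^ b * 5 ^ c`,
`2 ^ a * 3 ^ b * 7 ^ c`, `3 ^ b * 13 ^ c`, `2 * 3 ^ b * 13 ^ c`, `2 * 3 ^ b * 11 ^ c`. -/
def Degree (m : ℕ) : Prop :=
  (∃ l k : ℕ, l.Prime ∧ (m = l ^ k ∨ m = 2 * l ^ k)) ∨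
  ∃ a b c : ℕ, m = 2 ^ a * 3 ^ b * 5 ^ c ∨ m = 2 ^ a * 3 ^ b * 7 ^ c ∨
    m = 3 ^ b * 13 ^ c ∨ m = 2 * (3 ^ b * 13 ^ c) ∨ m = 2 * (3 ^ b * 11 ^ c)

/-- differences of two characters of the Fermat curve of degree `m` with the same type: the
numbers `⟨t a / m⟩ + ⟨t b / m⟩ + ⟨t c / m⟩` agree for all units `t` -/
def typeSet (m : ℕ) : Set (ZMod m → ℤ) :=
  {g | ∃ a b c a' b' c' : ZMod m, (a ≠ 0 ∧ b ≠ 0 ∧ c ≠ 0 ∧ a + b + c = 0) ∧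
    (a' ≠ 0 ∧ b' ≠ 0 ∧ c' ≠ 0 ∧ a' + b' + c' = 0) ∧
    (∀ t : (ZMod m)ˣ, ((t : ZMod m) * a).val + ((t : ZMod m) * b).val + ((t : ZMod m) * c).val =
      ((t : ZMod m) * a').val + ((t : ZMod m) * b').val + ((t : ZMod m) * c').val) ∧
    g = dlt a + dlt b + dlt c - (dlt a' + dlt b' + dlt c')}

end Pool.Agent.HOD
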