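import Mathlib
import Pool.Agent.FDG.Final
import Pool.Agent.HOD.Defs

/-!
Hodge classes on Fermat varieties: the theorem, from the lattice theorems of FDG and TateFT at `p = 1`.
-/

namespace Pool.Agent.HOD

open Finset Pool.Agent.TateFT Pool.Agent.FDG

/-- the first Bernoulli function as a function of the residue -/
theorem bet0_eq {m : ℕ} {x : ZMod m} (hx : x ≠ 0) : bet0 x = (x.val : ℂ) / m - 1 / 2 := by
  unfold bet0 bet
  rw [if_neg hx]

theorem unit_mul_ne {m : ℕ} (t : (ZMod m)ˣ) {x : ZMod m} (hx : x ≠ 0) : (t : ZMod m) * x ≠ 0 :=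
  fun h => hx ((Units.mul_right_eq_zero t).1 h)

/-- three values of the Bernoulli function -/
theorem bet3 {m : ℕ} (t : (ZMod m)ˣ) {a b c : ZMod m} (ha : a ≠ 0) (hb : b ≠ 0) (hc : c ≠ 0) :
    bet0 ((t : ZMod m) * a) + bet0 ((t : ZMod m) * b) + bet0 ((t : ZMod m) * c) =
      (((((t : ZMod m) * a).val + ((t : ZMod m) * b).val + ((t : ZMod m) * c).val : ℕ)) : ℂ) / m -
        3 / 2 := by
  rw [bet0_eq (unit_mul_ne t ha), bet0_eq (unit_mul_ne t hb), bet0_eq (unit_mul_ne t hc)]
  push_cast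
  ring

theorem bs0_one {m : ℕ} (x : ZMod m) : bs0 1 1 x = bet0 x := by
  unfold bs0
  rw [sum_range_one, pow_zero, one_mul]

/-- triples with the same Stickelberger element for `p = 1` are triples with the same type -/
theorem thSet_subset {m : ℕ} [NeZero m] : thSet m 1 1 ⊆ typeSet m := by
  rintro g ⟨a, b, c, a', b', c', ⟨ha, hb, hc, hs⟩, ⟨ha', hb', hc', hs'⟩, hB, rfl⟩
  refine ⟨a, b, c, a', b', c', ⟨ha, hb, hc, hs⟩, ⟨ha', hb', hc', hs'⟩, fun t => ?_, rfl⟩
  have h1 := hB t
  simp only [bs0_one] at h1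
  rw [bet3 t ha hb hc, bet3 t ha' hb' hc'] at h1
  have hm : (m : ℂ) ≠ 0 := by exact_mod_cast NeZero.ne m
  have h2 := sub_left_inj.1 h1
  rw [div_left_inj' hm] at h2
  exact_mod_cast h2

theorem dhSet_subset {m r : ℕ} (hr : r.Prime) (hrm : r ∣ m) : dhSet m r ⊆ dhAll m :=
  fun _ hg => ⟨r, hr, hrm, hg⟩

theorem frobSet_subset {m : ℕ} : frobSet m 1 ⊆ typeSet m := by
  rintro g ⟨a, b, c, ha, hb, hc, hs, rfl⟩
  refine ⟨a, b, c, a, b, c, ⟨ha, hb, hc, hs⟩, ⟨ha, hb, hc, hs⟩, fun t => rfl, ?_⟩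
  simp only [Nat.cast_one, one_mul]
  abel

theorem one_ne_neg {m : ℕ} (hm : 2 < m) : ∀ i : ℕ, ((1 : ℕ) : ZMod m) ^ i ≠ -1 := by
  intro i h
  rw [Nat.cast_one, one_pow, eq_neg_iff_add_eq_zero] at h
  have h2 : ((2 : ℕ) : ZMod m) = 0 := by
    rw [← h]
    push_cast
    ring
  rw [ZMod.natCast_eq_zero_iff] at h2
  exact absurd (Nat.le_of_dvd (by norm_num) h2) (by omega)

/-- the function on the group -/
theorem lattice_case {m : ℕ} [NeZero m] (hm : Degree m) (hm2 : 2 < m) (N : ZMod m → ℤ)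
    (hN0 : N 0 = 0) (hNs : ∑ a : ZMod m, (N a : ZMod m) * a = 0) (hNe : Even (∑ a : ZMod m, N a))
    (hB : ∀ t : (ZMod m)ˣ, ∑ a : ZMod m, (N a : ℂ) * bet0 ((t : ZMod m) * a) = 0) :
    N ∈ AddSubgroup.closure (pairSet m ∪ typeSet m ∪ dhAll m) := by
  have hB1 : ∀ {n : ℕ} [NeZero n] (M : ZMod n → ℤ),
      (∀ t : (ZMod n)ˣ, ∑ a : ZMod n, (M a : ℂ) * bet0 ((t : ZMod n) * a) = 0) ↔
      ∀ t : (ZMod n)ˣ, ∑ a : ZMod n, (M a : ℂ) *
        ∑ i ∈ range 1, bet0 ((t : ZMod n) * (((1 : ℕ) : ZMod n) ^ i * a)) = 0 := by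
    intro n _ M
    refine forall_congr' fun t => ?_
    simp only [sum_range_one, pow_zero, one_mul]
  -- prime powers and their doubles
  have key : ∀ l k : ℕ, l.Prime → k ≠ 0 → (m = l ^ k ∨ m = 2 * l ^ k) →
      N ∈ AddSubgroup.closure (pairSet m ∪ typeSet m ∪ dhAll m) := by
    intro l k hl hk h
    have kp : ∀ l k : ℕ, l.Prime → k ≠ 0 → m = l ^ k →
        N ∈ AddSubgroup.closure (pairSet m ∪ typeSet m ∪ dhAll m) := by
      intro l k hl hk h
      subst h
      have h1 := mem_closure_prime_pow hl hk 1 1 one_pos (by rw [Nat.cast_one, one_pow])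
        (one_ne_neg hm2) N hN0 hNs hNe ((hB1 N).1 hB)
      refine AddSubgroup.closure_mono ?_ h1
      refine Set.union_subset_union (Set.union_subset_union_right _ frobSet_subset) ?_
      exact dhSet_subset hl (dvd_pow_self l hk)
    rcases h with h | h
    · exact kp l k hl hk h
    · by_cases hl2 : l = 2
      · exact kp 2 (k + 1) Nat.prime_two (Nat.succ_ne_zero k) (by rw [h, hl2, pow_succ'])
      · have hlodd : Odd l := hl.odd_of_ne_two hl2
        have hnodd : Odd (l ^ k) := hlodd.pow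
        have hn0 : NeZero (l ^ k) := ⟨pow_ne_zero _ hl.ne_zero⟩
        have hlk : 2 < l ^ k := by
          have h1 : 1 < l ^ k := Nat.one_lt_pow hk hl.one_lt
          obtain ⟨s, hs⟩ := hnodd
          omega
        subst h
        have h1 := double (n := l ^ k) (l := l) (p := 1) (f := 1) hnodd (dvd_pow_self l hk)
          (fun M hM0 hMs hMe hMB => mem_closure_prime_pow hl hk 1 1 one_pos
            (by rw [Nat.cast_one, one_pow]) (one_ne_neg hlk) M hM0 hMs hMe hMB)
          (by rw [Nat.cast_one]; exact isUnit_one) N hN0 hNs hNe ((hB1 N).1 hB)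
        refine AddSubgroup.closure_mono ?_ h1
        refine Set.union_subset (Set.union_subset (Set.union_subset_union_right _
          frobSet_subset |>.trans Set.subset_union_left) ?_) ?_
        · exact (dhSet_subset hl (Dvd.dvd.mul_left (dvd_pow_self l hk) 2)).trans
            Set.subset_union_right
        · exact (dhSet_subset Nat.prime_two (Dvd.intro _ rfl)).trans Set.subset_union_right
  have hgood : Dn m 1 := by
    rcases hm with ⟨l, k, hl, h⟩ | ⟨a, b, c, h⟩
    · left
      rcases Nat.eq_zero_or_pos k with hk | hk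
      · rcases h with h | h
        · left; rw [h, hk, pow_zero]
        · right; exact ⟨2, 1, Nat.prime_two, one_ne_zero, Or.inl (by rw [h, hk]; norm_num)⟩
      · right; exact ⟨l, k, hl, hk.ne', h⟩
    · exact dn_of_good (Or.inr (Or.inl ⟨Nat.ModEq.refl _, a, b, c, h⟩))
  rcases hgood with (h1 | ⟨l, k, hl, hk, h1⟩) | h1
  · omega
  · exact key l k hl hk h1
  · have hL := h1 1 one_pos (by rw [Nat.cast_one, one_pow]) (one_ne_neg hm2)
    have h2 := mem_of_lat hL N ⟨hN0, hNs, hNe, fun t => by simp only [bs0_one]; exact hB t⟩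
    refine AddSubgroup.closure_mono ?_ h2
    exact Set.union_subset_union_left _ (Set.union_subset_union_right _ thSet_subset)

/-- the residues of `x` and `-x` -/
theorem val_add_val_neg {m : ℕ} [NeZero m] {x : ZMod m} (hx : x ≠ 0) : x.val + (-x).val = m := by
  have : NeZero x := ⟨hx⟩
  rw [ZMod.val_neg_of_ne_zero]
  have := ZMod.val_lt x
  omega

/-- **Theorem.** Hodge classes on Fermat varieties of the degrees of `Degree`. -/
theorem hodge_fermat {m : ℕ} (hm : Degree m) {ι : Type*} [Fintype ι] (w : ℕ)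
    (a : ι → ZMod m) (ha : ∀ i, a i ≠ 0)
    (h : ∀ t : (ZMod m)ˣ, ∑ i, ((t : ZMod m) * a i).val = m * w) :
    ∑ i, dlt (a i) ∈ AddSubgroup.closure (pairSet m ∪ typeSet m ∪ dhAll m) := by
  classical
  have hm0 : m ≠ 0 := by
    rcases hm with ⟨l, k, hl, h | h⟩ | ⟨a, b, c, h | h | h | h | h⟩ <;> rw [h]
    · exact pow_ne_zero _ hl.ne_zero
    · exact Nat.mul_ne_zero two_ne_zero (pow_ne_zero _ hl.ne_zero)
    all_goals positivity
  have : NeZero m := ⟨hm0⟩
  -- the number of entries
  have hcard : Fintype.card ι = 2 * w := by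
    have h1 := h 1
    have h2 := h (-1)
    have h3 : ∑ i, (((1 : (ZMod m)ˣ) : ZMod m) * a i).val +
        ∑ i, (((-1 : (ZMod m)ˣ) : ZMod m) * a i).val = m * Fintype.card ι := by
      rw [← sum_add_distrib]
      have : ∀ i ∈ (univ : Finset ι), (((1 : (ZMod m)ˣ) : ZMod m) * a i).val +
          (((-1 : (ZMod m)ˣ) : ZMod m) * a i).val = m := by
        intro i _
        push_cast
        rw [one_mul, neg_one_mul]
        exact val_add_val_neg (ha i)
      rw [sum_congr rfl this, sum_const, card_univ, smul_eq_mul, mul_comm]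
    rw [h1, h2, ← mul_add] at h3
    have h4 := Nat.eq_of_mul_eq_mul_left (Nat.pos_of_ne_zero hm0) h3
    omega
  set N : ZMod m → ℤ := ∑ i, dlt (a i) with hN
  have hNapp : ∀ x, N x = ∑ i, dlt (a i) x := fun x => Finset.sum_apply x _ _
  have hN0 : N 0 = 0 := by
    rw [hNapp]
    apply sum_eq_zero
    intro i _
    unfold dlt
    rw [if_neg]
    exact fun h0 => ha i h0.symm
  have hsum : ∀ {R : Type} [CommRing R] (g : ZMod m → R),
      ∑ x : ZMod m, ((N x : ℤ) : R) * g x = ∑ i, g (a i) := by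
    intro R _ g
    simp_rw [hNapp]
    simp only [Int.cast_sum, sum_mul]
    rw [sum_comm]
    refine sum_congr rfl fun i _ => ?_
    unfold dlt
    simp
  have hNs : ∑ x : ZMod m, (N x : ZMod m) * x = 0 := by
    rw [hsum (R := ZMod m) (fun x => x)]
    have h1 := congrArg (Nat.cast (R := ZMod m)) (h 1)
    push_cast at h1
    simp only [one_mul, ZMod.natCast_val, ZMod.cast_id', id_eq, ZMod.natCast_self, zero_mul] at h1
    exact h1
  have hNe : Even (∑ x : ZMod m, N x) := by
    have h1 := hsum (R := ℤ) (fun _ => 1)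
    simp only [mul_one, Int.cast_id] at h1
    rw [h1]
    simp only [sum_const, card_univ, hcard, nsmul_eq_mul, mul_one]
    push_cast
    exact even_two_mul _
  rcases Nat.lt_or_ge 2 m with hm2 | hm2
  · refine lattice_case hm hm2 N hN0 hNs hNe fun t => ?_
    rw [hsum (R := ℂ) (fun x => bet0 ((t : ZMod m) * x))]
    have h1 : ∀ i ∈ (univ : Finset ι), bet0 ((t : ZMod m) * a i) =
        (((t : ZMod m) * a i).val : ℂ) / m - 1 / 2 := fun i _ => bet0_eq (unit_mul_ne t (ha i))
    rw [sum_congr rfl h1, sum_sub_distrib, ← sum_div]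
    have h2 := congrArg (Nat.cast (R := ℂ)) (h t)
    push_cast at h2
    rw [h2, sum_const, card_univ, hcard]
    have hmc : (m : ℂ) ≠ 0 := by exact_mod_cast hm0
    rw [mul_div_cancel_left₀ _ hmc, nsmul_eq_mul]
    push_cast
    ring
  · -- `m ≤ 2`
    have h1 := mem_closure_ss (∅ : Set (ZMod m → ℤ)) (by
      intro x y z x' y' z' hx _
      exfalso
      obtain ⟨h1, h2, h3, h4⟩ := hx
      interval_cases m
      · exact hm0 rfl
      · exact h1 (Subsingleton.elim _ _)
      · revert h1 h2 h3 h4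
        revert x y z
        decide) N hN0 hNs hNe
    refine AddSubgroup.closure_mono ?_ h1
    rw [Set.union_empty]
    exact Set.subset_union_left.trans Set.subset_union_left

end Pool.Agent.HOD
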